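import Pool.Agent.Helper4.MCP.GoalsC

/-!
Packet MCP-MARK for helper4 (MP_d8224a_co): `goalMARK : G_MARK`.
-/

set_option autoImplicit false

namespace Pool.Agent.Helper12.MCP

open Pool.Agent.Helper4.MCP Pool.Agent.Helper26.MCE Pool.Agent.Helper87.MC Finset

variable {G : Type} [AddCommGroup G] [Fintype G] {M : ℕ}

open Classical in
/-- The number of the sequences of `j` pairs of hosts outside `S`, with pairwise different entries,
such that the first host of each pair has its mark covered by the second. -/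
noncomputable def NN (D : Finset G) (d : G) : ℕ → (Fin M → G) → Finset (Fin M) → ℝ
  | 0, _, _ => 1
  | j + 1, ω, S => ∑ v, ∑ v', if v ∉ S ∧ v' ∉ S ∧ v' ≠ v ∧ ω v + d - ω v' ∈ D then
      NN D d j ω (insert v (insert v' S)) else 0

omit [Fintype G] in
theorem NN_nonneg (D : Finset G) (d : G) (j : ℕ) : ∀ (ω : Fin M → G) (S : Finset (Fin M)),
    0 ≤ NN D d j ω S := by
  classical
  induction j with
  | zero => intro ω S; simp [NN]
  | succ j ih =>
    intro ω S
    unfold NN
    refine sum_nonneg fun v _ => sum_nonneg fun v' _ => ?_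
    split_ifs
    · exact ih _ _
    · exact le_rfl

omit [Fintype G] in
theorem NN_inv (D : Finset G) (d : G) (j : ℕ) : ∀ (ω : Fin M → G) (S : Finset (Fin M)) (v : Fin M)
    (a : G), v ∈ S → NN D d j (ω + Pi.single v a) S = NN D d j ω S := by
  classical
  induction j with
  | zero => intro ω S v a _; simp [NN]
  | succ j ih =>
    intro ω S v a hv
    unfold NN
    refine sum_congr rfl fun v1 _ => sum_congr rfl fun v2 _ => ?_
    by_cases h1 : v1 ∉ S
    · by_cases h2 : v2 ∉ S
      · have e1 : (ω + Pi.single v a : Fin M → G) v1 = ω v1 := by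
          have : v1 ≠ v := fun h => h1 (h ▸ hv)
          simp [Pi.add_apply, Pi.single_eq_of_ne this]
        have e2 : (ω + Pi.single v a : Fin M → G) v2 = ω v2 := by
          have : v2 ≠ v := fun h => h2 (h ▸ hv)
          simp [Pi.add_apply, Pi.single_eq_of_ne this]
        rw [e1, e2, ih ω _ v a (by simp [hv])]
      · simp [h2]
    · simp [h1]

open Classical in
/-- One-coordinate averaging. -/
theorem avg (D : Finset G) (d : G) (v v' : Fin M) (hvv : v' ≠ v) (g : (Fin M → G) → ℝ)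
    (hg : ∀ ω a, g (ω + Pi.single v a) = g ω) :
    (Fintype.card G : ℝ) * ∑ ω : Fin M → G, (if ω v + d - ω v' ∈ D then g ω else 0) =
      D.card * ∑ ω : Fin M → G, g ω := by
  have h1 : ∀ a : G, ∑ ω : Fin M → G, (if ω v + d - ω v' ∈ D then g ω else 0) =
      ∑ ω : Fin M → G, (if ω v + a + d - ω v' ∈ D then g ω else 0) := by
    intro a
    rw [← Equiv.sum_comp (Equiv.addRight (Pi.single v a : Fin M → G))]
    refine sum_congr rfl fun ω _ => ?_
    simp only [Equiv.coe_addRight, hg, Pi.add_apply, Pi.single_eq_same,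
      Pi.single_eq_of_ne hvv, add_zero]
  have h2 : (Fintype.card G : ℝ) * ∑ ω : Fin M → G, (if ω v + d - ω v' ∈ D then g ω else 0) =
      ∑ a : G, ∑ ω : Fin M → G, (if ω v + a + d - ω v' ∈ D then g ω else 0) := by
    rw [← sum_congr rfl fun a _ => h1 a]
    simp
  rw [h2, sum_comm, mul_sum]
  refine sum_congr rfl fun ω _ => ?_
  rw [← sum_filter, sum_const, nsmul_eq_mul]
  congr 1
  norm_cast
  refine card_bij (fun a _ => ω v + a + d - ω v') ?_ ?_ ?_
  · intro a ha; simpa using ha
  · intro a _ b _ h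
    simpa using h
  · intro y hy
    exact ⟨y + ω v' - d - ω v, by simpa using hy, by abel⟩

theorem NN_upper (D : Finset G) (d : G) (j : ℕ) : ∀ S : Finset (Fin M),
    (∑ ω : Fin M → G, NN D d j ω S) * (Fintype.card G : ℝ) ^ j ≤
      ((M : ℝ) ^ 2 * D.card) ^ j * (Fintype.card G : ℝ) ^ M := by
  classical
  induction j with
  | zero => intro S; simp [NN, Fintype.card_pi]
  | succ j ih =>
    intro S
    unfold NN
    rw [sum_comm, pow_succ, ← mul_assoc]
    have hsw : ∑ v : Fin M, ∑ ω : Fin M → G, ∑ v' : Fin M,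
        (if v ∉ S ∧ v' ∉ S ∧ v' ≠ v ∧ ω v + d - ω v' ∈ D then
          NN D d j ω (insert v (insert v' S)) else 0) =
        ∑ v : Fin M, ∑ v' : Fin M, ∑ ω : Fin M → G,
        (if v ∉ S ∧ v' ∉ S ∧ v' ≠ v ∧ ω v + d - ω v' ∈ D then
          NN D d j ω (insert v (insert v' S)) else 0) :=
      sum_congr rfl fun v _ => sum_comm
    rw [hsw, sum_mul, sum_mul]
    have hstep : ∀ v v' : Fin M, (∑ ω : Fin M → G,
        (if v ∉ S ∧ v' ∉ S ∧ v' ≠ v ∧ ω v + d - ω v' ∈ D then
          NN D d j ω (insert v (insert v' S)) else 0)) * (Fintype.card G : ℝ) ^ j *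
          (Fintype.card G : ℝ) ≤ D.card * (((M : ℝ) ^ 2 * D.card) ^ j *
            (Fintype.card G : ℝ) ^ M) := by
      intro v v'
      by_cases h : v ∉ S ∧ v' ∉ S ∧ v' ≠ v
      · have e : ∀ ω : Fin M → G, (if v ∉ S ∧ v' ∉ S ∧ v' ≠ v ∧ ω v + d - ω v' ∈ D then
            NN D d j ω (insert v (insert v' S)) else 0) =
            (if ω v + d - ω v' ∈ D then NN D d j ω (insert v (insert v' S)) else 0) := by
          intro ω
          simp [h.1, h.2.1, h.2.2]
        rw [sum_congr rfl fun ω _ => e ω]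
        have ha := avg D d v v' h.2.2 (fun ω => NN D d j ω (insert v (insert v' S)))
          (fun ω a => NN_inv D d j ω _ v a (by simp))
        have hi := ih (insert v (insert v' S))
        calc _ = ((Fintype.card G : ℝ) * ∑ ω : Fin M → G, (if ω v + d - ω v' ∈ D then
              NN D d j ω (insert v (insert v' S)) else 0)) * (Fintype.card G : ℝ) ^ j := by ring
          _ = D.card * ((∑ ω : Fin M → G, NN D d j ω (insert v (insert v' S))) *
              (Fintype.card G : ℝ) ^ j) := by rw [ha]; ring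
          _ ≤ _ := mul_le_mul_of_nonneg_left hi (by positivity)
      · have e : ∀ ω : Fin M → G, (if v ∉ S ∧ v' ∉ S ∧ v' ≠ v ∧ ω v + d - ω v' ∈ D then
            NN D d j ω (insert v (insert v' S)) else 0) = 0 := by
          intro ω
          refine if_neg fun hh => h ⟨hh.1, hh.2.1, hh.2.2.1⟩
        rw [sum_congr rfl fun ω _ => e ω]
        simp only [sum_const_zero, zero_mul]
        positivity
    calc ∑ v : Fin M, (∑ v' : Fin M, ∑ ω : Fin M → G,
        (if v ∉ S ∧ v' ∉ S ∧ v' ≠ v ∧ ω v + d - ω v' ∈ D then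
          NN D d j ω (insert v (insert v' S)) else 0)) * (Fintype.card G : ℝ) ^ j *
          (Fintype.card G : ℝ)
        ≤ ∑ v : Fin M, ∑ v' : Fin M, D.card * (((M : ℝ) ^ 2 * D.card) ^ j *
            (Fintype.card G : ℝ) ^ M) := by
          refine sum_le_sum fun v _ => ?_
          rw [sum_mul, sum_mul]
          exact sum_le_sum fun v' _ => hstep v v'
      _ = _ := by
          simp only [sum_const, card_univ, Fintype.card_fin, nsmul_eq_mul]
          ring

open Classical in
theorem NN_lower (D : Finset G) (d : G) (Q : ℕ) (θ : ℝ) (ω : Fin M → G)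
    (hQ : 2 * ((Q : ℝ) * (2 * Q + 2)) ≤ θ * M)
    (h1 : ∀ z, (univ.filter fun v => (ω v - z ∈ D)).card ≤ Q)
    (h2 : θ * M < ((univ.filter fun v => ∃ v', v' ≠ v ∧ ω v + d - ω v' ∈ D).card : ℝ)) (j : ℕ) :
    j ≤ Q → ∀ S : Finset (Fin M), S.card ≤ 2 * (Q - j) → (θ * M / 2) ^ j ≤ NN D d j ω S := by
  have hθM : 0 ≤ θ * M := le_trans (by positivity) hQ
  induction j with
  | zero => intro _ S _; simp [NN]
  | succ j ih =>
    intro hj S hS
    set B : Finset (Fin M) := univ.filter fun v => ∃ v', v' ≠ v ∧ ω v + d - ω v' ∈ D with hB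
    have hex : ∀ v : Fin M, ∃ v' : Fin M, v ∈ B → v' ≠ v ∧ ω v + d - ω v' ∈ D := by
      intro v
      by_cases hv : v ∈ B
      · obtain ⟨v', hv'⟩ := (mem_filter.mp hv).2
        exact ⟨v', fun _ => hv'⟩
      · exact ⟨v, fun h => absurd h hv⟩
    choose τ hτ using hex
    set C : Finset (Fin M) := B.filter fun v => v ∉ S ∧ τ v ∉ S with hC
    -- the excluded ones
    have hsub : B ⊆ C ∪ (S ∪ S.biUnion fun s => univ.filter fun v => ω v - (ω s - d) ∈ D) := by
      intro v hv
      by_cases hvS : v ∈ S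
      · simp [hvS]
      · by_cases htS : τ v ∈ S
        · refine mem_union_right _ (mem_union_right _ (mem_biUnion.mpr ⟨τ v, htS, ?_⟩))
          rw [mem_filter]
          refine ⟨mem_univ _, ?_⟩
          have := (hτ v hv).2
          rwa [show ω v - (ω (τ v) - d) = ω v + d - ω (τ v) by abel]
        · exact mem_union_left _ (mem_filter.mpr ⟨hv, hvS, htS⟩)
    have hcard : B.card ≤ C.card + (S.card + S.card * Q) := by
      refine (card_le_card hsub).trans ((card_union_le _ _).trans ?_)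
      refine Nat.add_le_add_left ((card_union_le _ _).trans ?_) _
      refine Nat.add_le_add_left (card_biUnion_le_card_mul _ _ _ fun s _ => ?_) _
      convert h1 (ω s - d)
    have hSQ : (S.card : ℝ) ≤ 2 * Q := by
      have : S.card ≤ 2 * Q := hS.trans (Nat.mul_le_mul_left _ (Nat.sub_le _ _))
      exact_mod_cast this
    have hCc : θ * M / 2 ≤ (C.card : ℝ) := by
      have hc' : (B.card : ℝ) ≤ C.card + (S.card + S.card * Q) := by exact_mod_cast hcard
      have hq0 : (0 : ℝ) ≤ Q := Nat.cast_nonneg _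
      have h3 : (S.card : ℝ) * Q ≤ 2 * Q * Q := mul_le_mul_of_nonneg_right hSQ hq0
      nlinarith [h2]
    have hSd : ∀ v ∈ C, (insert v (insert (τ v) S)).card ≤ 2 * (Q - j) := by
      intro v _
      have : (insert v (insert (τ v) S)).card ≤ S.card + 1 + 1 :=
        (card_insert_le _ _).trans (Nat.add_le_add_right (card_insert_le _ _) 1)
      omega
    have hge : ∑ v ∈ C, (θ * M / 2) ^ j ≤ NN D d (j + 1) ω S := by
      show _ ≤ ∑ v, ∑ v', if v ∉ S ∧ v' ∉ S ∧ v' ≠ v ∧ ω v + d - ω v' ∈ D then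
        NN D d j ω (insert v (insert v' S)) else 0
      have hnn : ∀ v v' : Fin M, 0 ≤ (if v ∉ S ∧ v' ∉ S ∧ v' ≠ v ∧ ω v + d - ω v' ∈ D then
          NN D d j ω (insert v (insert v' S)) else 0) := by
        intro v v'
        split_ifs
        · exact NN_nonneg D d j _ _
        · exact le_rfl
      refine le_trans ?_ (sum_le_univ_sum_of_nonneg (s := C) fun v =>
        sum_nonneg fun v' _ => hnn v v')
      refine sum_le_sum fun v hv => ?_
      have hv' := mem_filter.mp hv
      refine le_trans ?_ (single_le_sum (f := fun v' => if v ∉ S ∧ v' ∉ S ∧ v' ≠ v ∧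
        ω v + d - ω v' ∈ D then NN D d j ω (insert v (insert v' S)) else 0)
        (fun v' _ => hnn v v') (mem_univ (τ v)))
      show _ ≤ if v ∉ S ∧ τ v ∉ S ∧ τ v ≠ v ∧ ω v + d - ω (τ v) ∈ D then
        NN D d j ω (insert v (insert (τ v) S)) else 0
      rw [if_pos ⟨hv'.2.1, hv'.2.2, (hτ v hv'.1).1, (hτ v hv'.1).2⟩]
      exact ih (by omega) _ (hSd v hv)
    refine le_trans ?_ hge
    rw [sum_const, nsmul_eq_mul, pow_succ, mul_comm]
    exact mul_le_mul_of_nonneg_right hCc (by positivity)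

open Classical in
/-- **MARK**. -/
theorem goalMARK : G_MARK := by
  intro G _ _ D M Q θ d hQ1 hθ hQ
  set Ω : Finset (Fin M → G) := univ.filter fun ω : Fin M → G =>
    (∀ z, (univ.filter fun v => ω v - z ∈ D).card ≤ Q) ∧
      θ * M < ((univ.filter fun v => ∃ v', v' ≠ v ∧ ω v + d - ω v' ∈ D).card : ℝ) with hΩ
  have hM : (0 : ℝ) < M := by
    have h1 : (1 : ℝ) ≤ Q := by exact_mod_cast hQ1
    have h2 : (0 : ℝ) < θ * M := lt_of_lt_of_le (by positivity) hQ
    exact pos_of_mul_pos_right (by linarith [h2]) hθ.le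
  have hlow : ∀ ω ∈ Ω, (θ * M / 2) ^ Q ≤ NN D d Q ω ∅ := by
    intro ω hω
    have hω' := (mem_filter.mp hω).2
    refine NN_lower D d Q θ ω hQ ?_ ?_ Q le_rfl ∅ (by simp)
    · intro z
      convert hω'.1 z
    · convert hω'.2
  have hup := NN_upper (M := M) D d Q ∅
  have h1 : (Ω.card : ℝ) * (θ * M / 2) ^ Q ≤ ∑ ω : Fin M → G, NN D d Q ω ∅ := by
    calc (Ω.card : ℝ) * (θ * M / 2) ^ Q = ∑ ω ∈ Ω, (θ * M / 2) ^ Q := by
          rw [sum_const, nsmul_eq_mul]
      _ ≤ ∑ ω ∈ Ω, NN D d Q ω ∅ := sum_le_sum hlow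
      _ ≤ _ := sum_le_univ_sum_of_nonneg fun ω => NN_nonneg D d Q ω ∅
  have h2 : (Ω.card : ℝ) * (θ * M / 2) ^ Q * (Fintype.card G : ℝ) ^ Q ≤
      ((M : ℝ) ^ 2 * D.card) ^ Q * (Fintype.card G : ℝ) ^ M :=
    (mul_le_mul_of_nonneg_right h1 (by positivity)).trans hup
  have hMQ : (0 : ℝ) < (M / 2 : ℝ) ^ Q := by positivity
  refine le_of_mul_le_mul_right ?_ hMQ
  calc (Ω.card : ℝ) * (θ * Fintype.card G) ^ Q * (M / 2 : ℝ) ^ Q
      = (Ω.card : ℝ) * (θ * M / 2) ^ Q * (Fintype.card G : ℝ) ^ Q := by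
        rw [mul_assoc, mul_assoc, ← mul_pow, ← mul_pow]
        congr 2
        ring
    _ ≤ ((M : ℝ) ^ 2 * D.card) ^ Q * (Fintype.card G : ℝ) ^ M := h2
    _ = (2 * (M * D.card)) ^ Q * (Fintype.card G : ℝ) ^ M * (M / 2 : ℝ) ^ Q := by
        rw [mul_right_comm, ← mul_pow]
        congr 2
        ring

end Pool.Agent.Helper12.MCP
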